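import Pool.Agent.H648.Q.Defs
import Mathlib.NumberTheory.Pell

/-!
# Infinitely many positive integers with each sign (subtask Q648-INF)
-/

set_option autoImplicit false

namespace Pool.Agent.H618.Q648

open Finset
open Pool.Agent.H376R2.MR (lam)
open Pool.Agent.H648.Q

/-- an integer far away with the given sign -/
theorem exists_far {a b c : ℤ} (ha : a ≠ 0) (h : S_FIN a b c) {s : ℤ} (hs : s = 1 ∨ s = -1)
    (K : ℤ) : ∃ n : ℤ, K < |2 * a * n + b| ∧ lam (Fp a b c n).natAbs = s := by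
  classical
  by_contra hcon
  push Not at hcon
  obtain ⟨N₀, hN⟩ := h s hs (1 / 2) (by norm_num)
  set R : ℕ := (|K| + |b|).natAbs with hR
  have hbound : ∀ n : ℤ, lam (Fp a b c n).natAbs = s → n ∈ Icc (-(R : ℤ)) R := by
    intro n hn
    have h1 : |2 * a * n + b| ≤ K := by
      by_contra h2
      exact hcon n (not_le.1 h2) hn
    have h2 : |2 * a * n| ≤ |K| + |b| := by
      have h3 : |2 * a * n| ≤ |2 * a * n + b| + |b| := by
        have := abs_sub (2 * a * n + b) b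
        simpa using this
      have h4 := le_abs_self K
      linarith
    have h3 : |n| ≤ |2 * a * n| := by
      rw [abs_mul]
      have h4 : 1 ≤ |2 * a| := by
        apply Int.one_le_abs
        exact mul_ne_zero two_ne_zero ha
      nlinarith [abs_nonneg n]
    have h5 : (R : ℤ) = |K| + |b| := by
      rw [hR]
      have : 0 ≤ |K| + |b| := by positivity
      exact Int.natAbs_of_nonneg this
    rw [Finset.mem_Icc, h5]
    exact abs_le.1 (h3.trans h2)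
  set N : ℕ := (2 * R + 2 + N₀) ^ 2 with hNdef
  have hN0 : N₀ ≤ N := by
    rw [hNdef]; nlinarith
  have h1 := hN N hN0
  have h2 : ((Icc (-(N : ℤ)) N).filter (fun n => lam (Fp a b c n).natAbs = s)).card ≤
      (Icc (-(R : ℤ)) R).card := by
    apply Finset.card_le_card
    intro n hn
    exact hbound n (Finset.mem_filter.1 hn).2
  have h3 : (Icc (-(R : ℤ)) R).card = 2 * R + 1 := by
    rw [Int.card_Icc]; omega
  rw [h3] at h2
  have h4 : ((N : ℝ)) ^ ((1 : ℝ) - 1 / 2) = 2 * R + 2 + N₀ := by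
    have h5 : (N : ℝ) = ((2 * R + 2 + N₀ : ℝ)) ^ 2 := by
      rw [hNdef]; push_cast; ring
    rw [h5, ← Real.rpow_natCast, ← Real.rpow_mul (by positivity)]
    norm_num
  rw [h4] at h1
  have h6 : (((Icc (-(N : ℤ)) N).filter (fun n => lam (Fp a b c n).natAbs = s)).card : ℝ) ≤
      2 * R + 1 := by
    exact_mod_cast h2
  have h7 : (0 : ℝ) ≤ N₀ := by positivity
  linarith

/-- `v ^ 2 + e` is not a square if `e > 0` and `|v| > e` -/
theorem not_square {v e : ℤ} (he : 0 < e) (hv : e < |v|) : ¬ IsSquare (v ^ 2 + e) := by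
  rintro ⟨w, hw⟩
  have h1 : |v| ^ 2 = v ^ 2 := sq_abs v
  have h2 : |w| * |w| = w * w := abs_mul_abs_self w
  have h3 : |v| < |w| := by
    by_contra h4
    have h5 : |w| ≤ |v| := not_lt.1 h4
    have h6 : |w| * |w| ≤ |v| * |v| := mul_self_le_mul_self (abs_nonneg w) h5
    have h7 : |v| * |v| = v ^ 2 := by rw [← h1, sq]
    linarith
  have h4 : |v| + 1 ≤ |w| := h3
  have h6 : (|v| + 1) * (|v| + 1) ≤ |w| * |w| :=
    mul_self_le_mul_self (by linarith [abs_nonneg v]) h4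
  have h7 : (|v| + 1) * (|v| + 1) = v ^ 2 + 2 * |v| + 1 := by rw [← h1]; ring
  linarith [abs_nonneg v]

theorem lam_mul_sq {x w : ℕ} (hx : x ≠ 0) (hw : w ≠ 0) : lam (x * w ^ 2) = lam x := by
  unfold lam
  rw [ArithmeticFunction.cardFactors_mul hx (pow_ne_zero 2 hw),
    ArithmeticFunction.cardFactors_pow, pow_add, pow_mul]
  simp

theorem pell_step {a b c n₀ T U T₁ U₁ : ℤ} (ha : a ≠ 0) (hT : T ^ 2 -
    ((2 * a * n₀ + b) ^ 2 - (b ^ 2 - 4 * (a * c))) * U ^ 2 = 1) (hT1 : T = 1 + 2 * a * T₁)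
    (hU1 : U = 2 * a * U₁) :
    Fp a b c (n₀ + (2 * a * n₀ + b) * T₁ +
      ((2 * a * n₀ + b) ^ 2 - (b ^ 2 - 4 * (a * c))) * U₁) =
      Fp a b c n₀ * (T + (2 * a * n₀ + b) * U) ^ 2 := by
  have h4 : (4 * a) ≠ 0 := mul_ne_zero (by norm_num) ha
  apply mul_left_cancel₀ h4
  set v₀ := 2 * a * n₀ + b with hv0
  set Dl := v₀ ^ 2 - (b ^ 2 - 4 * (a * c)) with hDl
  have h5 : 4 * a * Fp a b c n₀ = Dl := by
    rw [hDl, hv0]; unfold Fp; ring
  have h6 : 4 * a * Fp a b c (n₀ + v₀ * T₁ + Dl * U₁) =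
      (v₀ * T + Dl * U) ^ 2 - (b ^ 2 - 4 * (a * c)) := by
    have h7 : 2 * a * (n₀ + v₀ * T₁ + Dl * U₁) + b = v₀ * T + Dl * U := by
      rw [hT1, hU1]; simp only [hv0]; ring
    rw [← h7]; unfold Fp; ring
  rw [h6]
  have h10 : 4 * a * (Fp a b c n₀ * (T + v₀ * U) ^ 2) = Dl * (T + v₀ * U) ^ 2 := by
    rw [← h5]; ring
  rw [h10]
  have h8 : Dl - v₀ ^ 2 = -(b ^ 2 - 4 * (a * c)) := by rw [hDl]; ring
  have h9 : (v₀ * T + Dl * U) ^ 2 - Dl * (T + v₀ * U) ^ 2 =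
      (v₀ ^ 2 - Dl) * (T ^ 2 - Dl * U ^ 2) := by ring
  rw [hT] at h9
  linarith

theorem inf_of {a b c : ℤ} (hD : b ^ 2 < 4 * (a * c)) (h : S_FIN a b c) : S_INF a b c := by
  intro s hs
  have ha : a ≠ 0 := by
    rintro rfl
    nlinarith [sq_nonneg b]
  apply Set.infinite_of_forall_exists_gt
  intro B
  obtain ⟨n₀, hfar, hsgn⟩ := exists_far ha h hs (4 * (a * c) - b ^ 2)
  set v₀ : ℤ := 2 * a * n₀ + b with hv0
  set e : ℤ := 4 * (a * c) - b ^ 2 with he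
  have he0 : 0 < e := by rw [he]; linarith
  set Dl : ℤ := v₀ ^ 2 - (b ^ 2 - 4 * (a * c)) with hDl
  have hDl' : Dl = v₀ ^ 2 + e := by rw [hDl, he]; ring
  have hDpos : 0 < Dl := by rw [hDl']; positivity
  have hnsq : ¬ IsSquare Dl := by rw [hDl']; exact not_square he0 hfar
  have haa : 1 ≤ |a| := Int.one_le_abs ha
  -- the size
  set X : ℤ := 2 * |a| * (B + 1) + |b| with hX
  have hX0 : 0 ≤ X := by rw [hX]; positivity
  set M : ℤ := 2 * X * |v₀| + X ^ 2 + Dl + 1 with hM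
  have hM1 : 1 ≤ M := by
    have : 0 ≤ 2 * X * |v₀| + X ^ 2 := by positivity
    rw [hM]; linarith
  have hd0 : 0 < Dl * (2 * a * M) ^ 2 := by
    have : 2 * a * M ≠ 0 := mul_ne_zero (mul_ne_zero two_ne_zero ha) (by linarith)
    positivity
  have hd1 : ¬ IsSquare (Dl * (2 * a * M) ^ 2) := by
    rintro ⟨r, hr⟩
    apply hnsq
    have h2 : 2 * a * M ≠ 0 := mul_ne_zero (mul_ne_zero two_ne_zero ha) (by linarith)
    have h3 : (2 * a * M) ^ 2 ∣ r ^ 2 := ⟨Dl, by rw [sq r, ← hr]; ring⟩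
    have h4 : (2 * a * M) ∣ r := (Int.pow_dvd_pow_iff two_ne_zero).1 h3
    obtain ⟨q, hq⟩ := h4
    refine ⟨q, ?_⟩
    have h5 : (2 * a * M) ^ 2 * Dl = (2 * a * M) ^ 2 * (q * q) := by
      rw [hq] at hr
      linear_combination hr
    exact mul_left_cancel₀ (pow_ne_zero 2 h2) h5
  clear_value M X
  obtain ⟨T₀, V₀, hTV, hV⟩ := Pell.exists_of_not_isSquare hd0 hd1
  -- choose the sign of `V`
  have hT0 : T₀ ≠ 0 := by
    intro h0
    have h1 : 0 ≤ Dl * (2 * a * M) ^ 2 * V₀ ^ 2 := mul_nonneg hd0.le (sq_nonneg V₀)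
    rw [h0] at hTV
    linarith
  obtain ⟨V, hTV1, hVpos⟩ : ∃ V : ℤ, T₀ ^ 2 - Dl * (2 * a * M) ^ 2 * V ^ 2 = 1 ∧ 0 < T₀ * V := by
    rcases lt_or_gt_of_ne (mul_ne_zero hT0 hV) with h1 | h1
    · exact ⟨-V₀, by rw [neg_sq]; exact hTV, by linarith [mul_neg T₀ V₀]⟩
    · exact ⟨V₀, hTV, h1⟩
  set T₁ : ℤ := 4 * a * Dl * M ^ 2 * V ^ 2 with hT1
  set U₁ : ℤ := 2 * M * (T₀ * V) with hU1
  set T : ℤ := 1 + 2 * a * T₁ with hT
  set U : ℤ := 2 * a * U₁ with hU
  have hpell : T ^ 2 - Dl * U ^ 2 = 1 := by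
    have h1 : T₀ ^ 2 = 1 + Dl * (2 * a * M) ^ 2 * V ^ 2 := by linarith
    have h2 : U ^ 2 = 16 * a ^ 2 * M ^ 2 * V ^ 2 * T₀ ^ 2 := by
      rw [hU, hU1]; ring
    rw [h2, h1, hT, hT1]; ring
  have hstep := pell_step (b := b) (c := c) (n₀ := n₀) ha hpell hT hU
  rw [← hv0, ← hDl] at hstep
  set n : ℤ := n₀ + v₀ * T₁ + Dl * U₁ with hn
  -- sizes of `T` and `U`
  have hV1 : 1 ≤ V ^ 2 := by
    have : V ≠ 0 := by
      rintro rfl
      simp at hVpos
    have := sq_pos_of_ne_zero this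
    linarith
  have hTbig : M ≤ T := by
    have h1 : T = 1 + 8 * Dl * (a ^ 2 * (M ^ 2 * V ^ 2)) := by rw [hT, hT1]; ring
    have h2 : 1 ≤ a ^ 2 := by
      have := sq_pos_of_ne_zero ha
      linarith
    have h3 : M ^ 2 ≤ M ^ 2 * V ^ 2 := le_mul_of_one_le_right (by positivity) hV1
    have h4 : M ^ 2 * V ^ 2 ≤ a ^ 2 * (M ^ 2 * V ^ 2) := le_mul_of_one_le_left (by positivity) h2
    have h5 : M ≤ M ^ 2 := le_self_pow₀ hM1 two_ne_zero
    have h6 : 1 ≤ Dl := hDpos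
    have h7 : 0 ≤ a ^ 2 * (M ^ 2 * V ^ 2) := by positivity
    have h8 : a ^ 2 * (M ^ 2 * V ^ 2) ≤ Dl * (a ^ 2 * (M ^ 2 * V ^ 2)) :=
      le_mul_of_one_le_left h7 h6
    rw [mul_assoc] at h1
    linarith
  have hTpos : 0 < T := by linarith
  -- the sign of `a`
  obtain ⟨σ, hσ, hσa⟩ : ∃ σ : ℤ, (σ = 1 ∨ σ = -1) ∧ σ * a = |a| := by
    rcases lt_or_gt_of_ne ha with h1 | h1
    · exact ⟨-1, Or.inr rfl, by rw [abs_of_neg h1]; ring⟩
    · exact ⟨1, Or.inl rfl, by rw [abs_of_pos h1]; ring⟩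
  have hσ2 : σ ^ 2 = 1 := by rcases hσ with rfl | rfl <;> norm_num
  have hσabs : |σ| = 1 := by rcases hσ with rfl | rfl <;> norm_num
  have hUpos : 0 ≤ σ * U := by
    have h1 : σ * U = 4 * (σ * a) * M * (T₀ * V) := by rw [hU, hU1]; ring
    rw [h1, hσa]
    have : 0 ≤ M := by linarith
    positivity
  have hlow : X ≤ Dl * (σ * U) - |v₀| * T := by
    by_contra hc
    have hc : Dl * (σ * U) < |v₀| * T + X := by linarith [not_le.1 hc]
    have h1 : (Dl * (σ * U)) ^ 2 < (|v₀| * T + X) ^ 2 := by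
      apply pow_lt_pow_left₀ hc _ two_ne_zero
      positivity
    have h2 : (Dl * (σ * U)) ^ 2 = Dl * (T ^ 2 - 1) := by
      have h3 : Dl * U ^ 2 = T ^ 2 - 1 := by linarith
      calc (Dl * (σ * U)) ^ 2 = σ ^ 2 * (Dl * (Dl * U ^ 2)) := by ring
        _ = Dl * (T ^ 2 - 1) := by rw [hσ2, h3]; ring
    rw [h2] at h1
    have h4 : (|v₀| * T + X) ^ 2 = v₀ ^ 2 * T ^ 2 + 2 * X * |v₀| * T + X ^ 2 := by
      rw [← sq_abs v₀]; ring
    rw [h4, hDl'] at h1
    have h5 : T ^ 2 ≤ e * T ^ 2 := le_mul_of_one_le_left (by positivity) he0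
    have h6 : T ^ 2 < 2 * X * |v₀| * T + X ^ 2 + Dl := by
      have h11 : (v₀ ^ 2 + e) * (T ^ 2 - 1) = v₀ ^ 2 * T ^ 2 + e * T ^ 2 - v₀ ^ 2 - e := by ring
      rw [h11] at h1
      linarith
    have h7 : M * T ≤ T ^ 2 := by
      rw [sq]; exact mul_le_mul_of_nonneg_right hTbig hTpos.le
    have h8 : M * T = 2 * X * |v₀| * T + X ^ 2 * T + Dl * T + T := by rw [hM]; ring
    have h9 : X ^ 2 ≤ X ^ 2 * T := le_mul_of_one_le_right (by positivity) (by linarith)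
    have h10 : Dl ≤ Dl * T := le_mul_of_one_le_right (by positivity) (by linarith)
    linarith
  have hnbig : (B : ℤ) + 1 ≤ n := by
    have h1 : 2 * a * n + b = v₀ * T + Dl * U := by
      rw [hn, hT, hU]
      have : v₀ = 2 * a * n₀ + b := hv0
      linear_combination (-1 : ℤ) * this
    have h2 : 2 * |a| * n = σ * (v₀ * T) + Dl * (σ * U) - σ * b := by
      rw [← hσa]; linear_combination σ * h1
    have h3 : -(|v₀| * T) ≤ σ * (v₀ * T) := by
      have := neg_abs_le (σ * (v₀ * T))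
      rw [abs_mul, abs_mul, hσabs, one_mul, abs_of_pos hTpos] at this
      exact this
    have h4 : σ * b ≤ |b| := by
      have := le_abs_self (σ * b)
      rwa [abs_mul, hσabs, one_mul] at this
    have h5 : 2 * |a| * ((B : ℤ) + 1) ≤ 2 * |a| * n := by
      rw [h2]
      have : X = 2 * |a| * (B + 1) + |b| := hX
      linarith
    have h6 : (0 : ℤ) < 2 * |a| := by linarith
    exact le_of_mul_le_mul_left h5 h6
  have hn0 : 0 ≤ n := by linarith [Int.natCast_nonneg B]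
  refine ⟨n.toNat, ?_, ?_⟩
  · change lam (Fp a b c ((n.toNat : ℕ) : ℤ)).natAbs = s
    rw [Int.toNat_of_nonneg hn0, hstep, Int.natAbs_mul, Int.natAbs_pow]
    rw [lam_mul_sq, hsgn]
    · rw [Int.natAbs_ne_zero]
      intro h0
      have h5 : 4 * a * Fp a b c n₀ = Dl := by
        rw [hDl, hv0]; unfold Fp; ring
      rw [h0] at h5
      simp at h5
      exact absurd h5 (ne_of_lt hDpos)
    · rw [Int.natAbs_ne_zero]
      intro h0
      have h9 : (v₀ * T + Dl * U) ^ 2 - Dl * (T + v₀ * U) ^ 2 =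
          (v₀ ^ 2 - Dl) * (T ^ 2 - Dl * U ^ 2) := by ring
      rw [hpell, h0] at h9
      have h10 := sq_nonneg (v₀ * T + Dl * U)
      linarith
  · have : (B : ℤ) < n := by linarith
    omega

end Pool.Agent.H618.Q648
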